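import Pool.Agent.W95.EQ.Stm

/-!
Project EQM (helper95), part NU (helper28): the spherical distance to a classical point.
-/

open Polynomial Topology Filter

namespace Pool.Agent.W28.EQ.NU

open Pool.Agent.W95.BK Pool.Agent.W95.EQ

universe u

section
variable {K : Type u} [NontriviallyNormedField K]

theorem map_neg' (y : BA K) (f : K[X]) : y (-f) = y f := by
  have : -f = C (-1) * f := by simp
  rw [this, y.map_mul', y.map_C', norm_neg, norm_one, one_mul]

theorem eq_cl' [IsUltrametricDist K] (y : BA K) (c : K) (h : lam y c = 0) : y = cl c := by
  apply BA.ext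
  intro g
  change y g = ‖g.eval c‖
  obtain ⟨q, hq⟩ : (X - C c) ∣ g - C (g.eval c) := by
    rw [dvd_iff_isRoot]; simp
  have h0 : y ((X - C c) * q) = 0 := by
    rw [y.map_mul']
    have : y (X - C c) = 0 := h
    rw [this, zero_mul]
  have e1 : g = C (g.eval c) + (X - C c) * q := by rw [← hq]; ring
  have e2 : C (g.eval c) = g + -((X - C c) * q) := by rw [← hq]; ring
  apply le_antisymm
  · calc y g = y (C (g.eval c) + (X - C c) * q) := by rw [← e1]
      _ ≤ max (y (C (g.eval c))) (y ((X - C c) * q)) := y.map_add' _ _
      _ = ‖g.eval c‖ := by rw [h0, y.map_C', max_eq_left (norm_nonneg _)]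
  · calc ‖g.eval c‖ = y (C (g.eval c)) := (y.map_C' _).symm
      _ = y (g + -((X - C c) * q)) := by rw [← e2]
      _ ≤ max (y g) (y (-((X - C c) * q))) := y.map_add' _ _
      _ = y g := by rw [map_neg', h0, max_eq_left (y.nonneg' _)]

theorem lam_zero (y : BA K) : lam y 0 = y X := by
  unfold lam; simp

end

theorem main : S_EV.{u} → S_NB.{u} → S_ISO.{u} → S_GLAM.{u} → S_NU.{u} := by
  intro hEV hNB hISO hGLAM K _ _ _ o
  have hopen := (hNB K).2.2.2
  have hmem : ∀ r : ℝ, {x : P1B K | ∀ y : BA K, x = (y : P1B K) → r < lam y 0} ∈
      𝓝 (OnePoint.infty : P1B K) := by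
    intro r
    apply (hopen 0 r).mem_nhds
    intro y hy
    exact absurd hy (OnePoint.infty_ne_coe y)
  have hX : Continuous (fun x : BA K => x X) := hEV K X
  have hm1 : ∀ y : BA K, 0 < max 1 (y X) := fun y => lt_of_lt_of_le one_pos (le_max_left _ _)
  have hc1 : ∀ c : K, 0 < max 1 ‖c‖ := fun c => lt_of_lt_of_le one_pos (le_max_left _ _)
  cases o with
  | none =>
    have hnu : ∀ y : BA K, nu none (y : P1B K) = 1 / max 1 (y X) := fun y => rfl
    have hnui : nu none (OnePoint.infty : P1B K) = 0 := rfl
    refine ⟨?_, ?_, ?_, ?_⟩
    · rw [continuous_iff_continuousAt]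
      intro x
      induction x using OnePoint.rec with
      | infty =>
        rw [ContinuousAt, hnui, Metric.tendsto_nhds]
        intro ε hε
        filter_upwards [hmem (1 / ε)] with x hx
        induction x using OnePoint.rec with
        | infty => rw [hnui, dist_self]; exact hε
        | coe y =>
          have h1 := hx y rfl
          rw [lam_zero] at h1
          rw [hnu, Real.dist_eq, sub_zero, abs_of_pos (by have := hm1 y; positivity)]
          rw [div_lt_iff₀ (hm1 y)]
          rw [div_lt_iff₀ hε] at h1
          have := le_max_right 1 (y X)
          nlinarith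
      | coe y =>
        rw [OnePoint.continuousAt_coe]
        have : Continuous (fun y : BA K => 1 / max 1 (y X)) :=
          continuous_const.div (continuous_const.max hX) (fun y => (hm1 y).ne')
        exact this.continuousAt
    · intro x
      induction x using OnePoint.rec with
      | infty => exact le_rfl
      | coe y => rw [hnu]; have := hm1 y; positivity
    · intro x
      induction x using OnePoint.rec with
      | infty => exact ⟨fun _ => rfl, fun _ => rfl⟩
      | coe y =>
        rw [hnu]
        constructor
        · intro h
          exact absurd h (by have := hm1 y; positivity)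
        · intro h
          exact absurd h (OnePoint.coe_ne_infty y)
    · intro s hs hs1
      rw [hnu]
      have h1 := ((hGLAM K 0 0).2 s hs)
      rw [lam_zero, sub_self, norm_zero, max_eq_right hs.le] at h1
      rw [h1, max_eq_right hs1]
  | some c =>
    have hnu : ∀ y : BA K, nu (some c) (y : P1B K) = lam y c / (max 1 (y X) * max 1 ‖c‖) :=
      fun y => rfl
    have hnui : nu (some c) (OnePoint.infty : P1B K) = 1 / max 1 ‖c‖ := rfl
    refine ⟨?_, ?_, ?_, ?_⟩
    · rw [continuous_iff_continuousAt]
      intro x
      induction x using OnePoint.rec with
      | infty =>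
        have hev : (fun _ : P1B K => 1 / max 1 ‖c‖) =ᶠ[𝓝 (OnePoint.infty : P1B K)]
            nu (some c) := by
          filter_upwards [hmem (max 1 ‖c‖)] with x hx
          induction x using OnePoint.rec with
          | infty => rfl
          | coe y =>
            have h1 := hx y rfl
            have h2 : ‖c - 0‖ < lam y 0 := by
              rw [sub_zero]; exact lt_of_le_of_lt (le_max_right _ _) h1
            have h3 := (hISO K y c 0).2.2.2 h2
            rw [hnu, h3, lam_zero]
            rw [lam_zero] at h1
            have h4 : 1 < y X := lt_of_le_of_lt (le_max_left _ _) h1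
            rw [max_eq_right h4.le]
            have h5 : y X ≠ 0 := by positivity
            have h6 := (hc1 c).ne'
            field_simp
        exact (continuousAt_const.congr hev)
      | coe y =>
        rw [OnePoint.continuousAt_coe]
        have : Continuous (fun y : BA K => lam y c / (max 1 (y X) * max 1 ‖c‖)) := by
          apply Continuous.div (hEV K (X - C c))
            ((continuous_const.max hX).mul continuous_const)
          intro y
          exact (mul_pos (hm1 y) (hc1 c)).ne'
        exact this.continuousAt
    · intro x
      induction x using OnePoint.rec with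
      | infty => rw [hnui]; have := hc1 c; positivity
      | coe y =>
        rw [hnu]
        exact div_nonneg (y.nonneg' _) (mul_pos (hm1 y) (hc1 c)).le
    · intro x
      induction x using OnePoint.rec with
      | infty =>
        rw [hnui]
        constructor
        · intro h
          exact absurd h (by have := hc1 c; positivity)
        · intro h
          exact absurd h (OnePoint.infty_ne_coe (cl c))
      | coe y =>
        rw [hnu, div_eq_zero_iff]
        constructor
        · rintro (h | h)
          · rw [eq_cl' y c h]; rfl
          · exact absurd h (mul_pos (hm1 y) (hc1 c)).ne'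
        · intro h
          left
          have h1 : y = cl c := OnePoint.coe_injective h
          rw [h1, (hGLAM K c c).1, sub_self, norm_zero]
    · intro s hs hs1
      rw [hnu]
      have h1 := ((hGLAM K 0 0).2 s hs)
      rw [lam_zero, sub_self, norm_zero, max_eq_right hs.le] at h1
      rw [h1, max_eq_right hs1, (hGLAM K 0 c).2 s hs, zero_sub, norm_neg]
      rw [div_le_div_iff₀ hs (mul_pos hs (hc1 c)), one_mul, mul_comm]
      apply mul_le_mul_of_nonneg_right _ hs.le
      rw [max_comm]
      exact max_le_max_left _ hs1

end Pool.Agent.W28.EQ.NU
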